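import Mathlib
import Pool.Agent.Q74.InnerIter.Coeff

/-!
# Abel's theorem fails for series of iterates of an inner function

There are an inner function `f` with `f 0 = 0`, not a rotation, a bounded sequence `a n` and the
boundary point `ξ = -1` such that all iterates have the radial limit `f^n(ξ) = 1`, the series
`∑ a n f^n(ξ)` converges, and `F = ∑ a n f^n` has no radial limit at `ξ`.

The function is `f z = z ^ 8 g (z ^ 3)` with an infinite Blaschke product `g` whose zeros cluster at
`-1` only.  Along suitable points `-r_k`, `r_k → 1`, the orbit of `f(-r_k)` stays near the fixed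
point `1` for a long time, then follows the cycle of the two primitive cube roots of unity for
`2 (k + 1)` steps, and the coefficients are `± (-1) ^ n / (2 (k + 1))` during these steps.
-/

set_option autoImplicit false

open Metric Set Filter Topology Complex

namespace Pool.Agent.Results.MP_f48be4_an.RadialDivergence

/-- Inner functions: analytic self-maps of the unit disc with radial limits of modulus one at almost
every boundary point `e^{iθ}`. -/
structure IsInner (f : ℂ → ℂ) : Prop where
  differentiableOn : DifferentiableOn ℂ f (ball 0 1)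
  mapsTo : MapsTo f (ball 0 1) (ball 0 1)
  radial : ∀ᵐ θ : ℝ, ∃ L : ℂ, ‖L‖ = 1 ∧
    Tendsto (fun r : ℝ => f (r * exp (θ * I))) (𝓝[<] 1) (𝓝 L)

/-- **Q1 is false.**  There are an inner function `f` with `f 0 = 0` which is not a rotation, a
sequence `a 1, a 2, …` such that the series `F z = ∑_{n ≥ 1} a n f^n(z)` converges absolutely in the
unit disc to an analytic function, and a point `ξ` of the unit circle, such that the radial limits
`L n` of all the iterates `f^n`, `n ≥ 1`, at `ξ` exist and the series `∑_{n ≥ 1} a n L n` converges, but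
`F (r ξ)` has no limit as `r → 1-`. -/
theorem result : ∃ f : ℂ → ℂ, IsInner f ∧ f 0 = 0 ∧
    (¬ ∃ c : ℂ, ‖c‖ = 1 ∧ ∀ z ∈ ball (0 : ℂ) 1, f z = c * z) ∧
    ∃ a : ℕ → ℂ,
      (∀ z ∈ ball (0 : ℂ) 1, Summable fun n : ℕ => ‖a (n + 1) * f^[n + 1] z‖) ∧
      DifferentiableOn ℂ (fun z => ∑' n : ℕ, a (n + 1) * f^[n + 1] z) (ball 0 1) ∧
      ∃ ξ : ℂ, ‖ξ‖ = 1 ∧ ∃ L : ℕ → ℂ,
        (∀ n, 1 ≤ n → Tendsto (fun r : ℝ => f^[n] (r * ξ)) (𝓝[<] 1) (𝓝 (L n))) ∧
        (∃ S : ℂ, Tendsto (fun m : ℕ => ∑ n ∈ Finset.range m, a (n + 1) * L (n + 1)) atTop (𝓝 S)) ∧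
        ¬ ∃ ℓ : ℂ,
          Tendsto (fun r : ℝ => ∑' n : ℕ, a (n + 1) * f^[n + 1] (r * ξ)) (𝓝[<] 1) (𝓝 ℓ) := by
  refine ⟨Q74.InnerIter.ff, ⟨Q74.InnerIter.ff_diff, ?_, ?_⟩, Q74.InnerIter.ff_zero, ?_,
    Q74.InnerIter.aa, ?_, ?_, -1, by simp, fun _ => 1, ?_, ?_, ?_⟩
  · -- self-map
    intro z hz
    rw [mem_ball_zero_iff] at hz ⊢
    exact (Q74.InnerIter.ff_norm_le hz.le).trans_lt (pow_lt_one₀ (norm_nonneg _) hz (by norm_num))
  · -- radial limits
    have hpre : (fun θ : ℝ => exp (θ * I)) = circleMap 0 1 := by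
      funext θ
      simp [circleMap]
    have hfin : ({z : ℂ | z ^ 3 = -1} : Set ℂ).Countable := by
      have : ({z : ℂ | z ^ 3 = -1} : Set ℂ) ⊆ ((Polynomial.X ^ 3 + Polynomial.C 1 :
          Polynomial ℂ).roots.toFinset : Set ℂ) := by
        intro z hz
        have hz' : z ^ 3 = -1 := hz
        rw [Finset.mem_coe, Multiset.mem_toFinset, Polynomial.mem_roots]
        · simp [hz']
        · intro h
          have := congrArg (Polynomial.eval 0) h
          simp at this
      exact (Finset.countable_toSet _).mono this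
    have hnull := (hfin.preimage_circleMap 0 one_ne_zero).ae_notMem MeasureTheory.volume
    filter_upwards [hnull] with θ hθ
    have hn : ‖exp ((θ : ℂ) * I)‖ = 1 := Complex.norm_exp_ofReal_mul_I θ
    have hne : exp ((θ : ℂ) * I) ^ 3 ≠ -1 := by
      intro h
      apply hθ
      rw [mem_preimage, ← hpre]
      exact h
    refine ⟨Q74.InnerIter.ff (exp (θ * I)), ?_, ?_⟩
    · rw [Q74.InnerIter.ff, norm_mul, norm_pow, hn, one_pow, one_mul]
      exact Q74.InnerIter.GG_eq (by rw [norm_pow, hn, one_pow])
    · have h1 := (Q74.InnerIter.ff_contAt hn.le hne).tendsto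
      apply h1.comp
      apply tendsto_nhdsWithin_of_tendsto_nhds_of_eventually_within
      · have hc : Continuous fun r : ℝ => (r : ℂ) * exp (θ * I) := by fun_prop
        have h2 := hc.tendsto 1
        rw [ofReal_one, one_mul] at h2
        exact h2.mono_left nhdsWithin_le_nhds
      · have h4 : ∀ᶠ r in 𝓝[<] (1 : ℝ), 0 < r :=
          (eventually_gt_nhds one_pos).filter_mono nhdsWithin_le_nhds
        filter_upwards [h4, self_mem_nhdsWithin] with r hr1 hr2
        have hr2' : r < 1 := hr2
        rw [mem_closedBall_zero_iff, norm_mul, hn, mul_one, Complex.norm_real, Real.norm_eq_abs,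
          abs_of_pos hr1]
        exact hr2'.le
  · -- not a rotation
    rintro ⟨c, hc, h⟩
    have h1 := h (1 / 2) (by rw [mem_ball_zero_iff]; norm_num)
    have h2 := Q74.InnerIter.ff_norm_le (z := 1 / 2) (by norm_num)
    rw [h1, norm_mul, hc, one_mul] at h2
    norm_num at h2
  · -- absolute convergence
    intro z hz
    rw [mem_ball_zero_iff] at hz
    exact (summable_nat_add_iff 1).2 (Q74.InnerIter.summable_main hz).norm
  · -- analyticity
    intro z hz
    rw [mem_ball_zero_iff] at hz
    obtain ⟨ρ, hρ1, hρ2⟩ := exists_between hz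
    have hρ0 : 0 ≤ ρ := (norm_nonneg z).trans hρ1.le
    have hd : DifferentiableOn ℂ (fun z => ∑' n : ℕ, Q74.InnerIter.aa (n + 1) *
        Q74.InnerIter.ff^[n + 1] z) (ball 0 ρ) := by
      apply differentiableOn_tsum_of_summable_norm (u := fun n => ρ ^ (n + 1))
      · exact (summable_nat_add_iff 1).2 (summable_geometric_of_lt_one hρ0 hρ2)
      · intro n
        have hmaps : ∀ n : ℕ, MapsTo (Q74.InnerIter.ff^[n]) (ball 0 ρ) (ball 0 1) := by
          intro n w hw
          rw [mem_ball_zero_iff] at hw ⊢
          have h1 := Q74.InnerIter.ff_iter_norm_le (hw.le.trans hρ2.le) n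
          rcases Nat.eq_zero_or_pos n with h0 | h0
          · rw [h0]
            exact hw.trans hρ2
          · exact h1.trans_lt (pow_lt_one₀ (norm_nonneg _) (hw.trans hρ2) (by omega))
        have hiter : ∀ n : ℕ, DifferentiableOn ℂ (Q74.InnerIter.ff^[n]) (ball 0 ρ) := by
          intro n
          induction n with
          | zero => exact differentiableOn_id
          | succ n ih =>
            rw [Function.iterate_succ']
            exact Q74.InnerIter.ff_diff.comp ih (hmaps n)
        exact (hiter (n + 1)).const_mul _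
      · exact isOpen_ball
      · intro n w hw
        rw [mem_ball_zero_iff] at hw
        rw [norm_mul]
        have h1 := Q74.InnerIter.norm_aa_le (n + 1)
        have h2 := Q74.InnerIter.ff_iter_norm_le (hw.le.trans hρ2.le) (n + 1)
        have h3 : ‖w‖ ^ (n + 1) ≤ ρ ^ (n + 1) := by gcongr
        nlinarith [norm_nonneg (Q74.InnerIter.aa (n + 1)),
          norm_nonneg (Q74.InnerIter.ff^[n + 1] w)]
    exact (hd.differentiableAt (isOpen_ball.mem_nhds (by
      rw [mem_ball_zero_iff]; exact hρ1))).differentiableWithinAt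
  · -- radial limits of the iterates
    intro n hn
    refine (Q74.InnerIter.ff_iter_radial n hn).congr fun r => ?_
    rw [mul_neg, mul_one]
  · -- convergence on the boundary
    refine ⟨0, ?_⟩
    have h1 := Q74.InnerIter.partial_tendsto.comp (tendsto_add_atTop_nat 1)
    refine h1.congr fun m => ?_
    rw [Function.comp, Finset.sum_range_succ', Q74.InnerIter.aa_zero, add_zero]
    simp
  · -- no radial limit
    rintro ⟨ℓ, h⟩
    apply Q74.InnerIter.no_limit ℓ
    have h4 : ∀ᶠ r in 𝓝[<] (1 : ℝ), 0 < r :=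
      (eventually_gt_nhds one_pos).filter_mono nhdsWithin_le_nhds
    apply h.congr'
    filter_upwards [h4, self_mem_nhdsWithin] with r hr1 hr2
    have hr2' : r < 1 := hr2
    have e : (r : ℂ) * -1 = -(r : ℂ) := by ring
    rw [e]
    have hn : ‖-(r : ℂ)‖ < 1 := by
      rw [norm_neg, Complex.norm_real, Real.norm_eq_abs, abs_of_pos hr1]
      exact hr2'
    rw [(Q74.InnerIter.summable_main hn).tsum_eq_zero_add, Q74.InnerIter.aa_zero, zero_mul,
      zero_add]

end Pool.Agent.Results.MP_f48be4_an.RadialDivergence
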